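import Pool.Agent.U401.RF.Idx
import Pool.Agent.U401.RF.Ex

/-!
# The residual finiteness growth of nilpotent groups and the complex Mal'cev completion

Let `G` be a finitely generated torsion-free nilpotent group, `L` its rational Mal'cev Lie algebra
and `𝔤 = ℂ ⊗ L`. Then `RF_G ≈ (log n) ^ k`, where `k` is the least integer such that the ideals of
`𝔤` of codimension at most `k` have intersection `0`. In particular `RF_G` depends only on the
complex Mal'cev completion of `G`, up to `≈`.

Outline of the proof.

* Upper bound. The elements of `𝔤` are separated by ideals of codimension at most `k`, so this is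
  certified by finitely many matrices over `ℂ`, hence (Nullstellensatz) over a number field `K`. The
  certificate can be reduced modulo all but finitely many primes `p` such that `𝓞 K` has a prime
  ideal of norm `p`. For these `p`, each `g ∈ G` is either detected by a quotient of `G` of order at
  most `p ^ k`, or `ρ g - 1` is divisible by `p`. By Landau's prime ideal theorem these primes
  `p ≤ C log n` have a product larger than `n ^ N`, while the nonzero entries of `ρ g - 1` are
  smaller than `n ^ N` if `g` has length `n`.
* Lower bound. If the ideals of codimension at most `k` do not separate the elements of `𝔤`, then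
  there is an element `z ≠ 1` of `G` which is in every normal subgroup of index `p ^ e`, `e ≤ k`,
  for all large primes `p`. Let `g = z ^ (lcm (1, …, m) ^ (2 k + 2))`. A normal subgroup of finite
  index without `g` is contained in one of prime power index `p ^ l`; then `p ^ l ≥ m ^ (k + 1)`.
* The existence of a Mal'cev completion in the form used here is proved with polynomial functions.
-/

set_option autoImplicit false

namespace Pool.Agent.Results.MP_67ef3c_al.ComplexMalcevCompletion

open Pool.Agent.TH91.RF Pool.Agent.U401.RF

/-- **Theorem.**
(1) Every finitely generated torsion-free nilpotent group `G` has a Mal'cev completion.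
(2) For each nontrivial group `G` with a Mal'cev completion `c` and every finite generating set `S`,
the residual finiteness growth of `G` is `≈ (log n) ^ k`, where `k = sepIndex c.CLie` is the least
integer such that the ideals of codimension at most `k` of the complexified Lie algebra `c.CLie`
have intersection `0`.
(3) If the complexified Lie algebras of the Mal'cev completions of `G₁` and `G₂` are isomorphic, then
`RF_{G₁} ≈ RF_{G₂}`. -/
theorem result :
    (∀ (G : Type) [Group G], Group.FG G → Group.IsNilpotent G →
      (∀ (g : G) (n : ℕ), 0 < n → g ^ n = 1 → g = 1) → Nonempty (MalcevCompletion G)) ∧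
    (∀ (G : Type) [Group G] [Nontrivial G] (c : MalcevCompletion G) (S : Set G), S.Finite →
      Subgroup.closure S = ⊤ →
      GrowthEquiv (rfGrowth S) (fun n => Nat.log 2 n ^ sepIndex c.CLie)) ∧
    (∀ (G₁ G₂ : Type) [Group G₁] [Group G₂] (c₁ : MalcevCompletion G₁)
      (c₂ : MalcevCompletion G₂), Nonempty (c₁.CLie ≃ₗ⁅ℂ⁆ c₂.CLie) →
      ∀ (S₁ : Set G₁) (S₂ : Set G₂), S₁.Finite → S₂.Finite →
        Subgroup.closure S₁ = ⊤ → Subgroup.closure S₂ = ⊤ →
        GrowthEquiv (rfGrowth S₁) (rfGrowth S₂)) := by
  refine ⟨?_, ?_, ?_⟩
  · intro G _ hfg hn htf
    exact exists_completion G hfg hn htf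
  · intro G _ _ c S hS hgen
    exact growth c hS hgen
  · rintro G₁ G₂ _ _ c₁ c₂ ⟨ψ⟩ S₁ S₂ hS₁ hS₂ hgen₁ hgen₂
    exact main c₁ c₂ ψ hS₁ hS₂ hgen₁ hgen₂

end Pool.Agent.Results.MP_67ef3c_al.ComplexMalcevCompletion
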